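import Mathlib

/-!
# The Zeckendorf parity sequence: recursions and the shift
-/

set_option autoImplicit false

open Nat

namespace Pool.Agent.J6H89.Zeck

/-- Zeckendorf representation of `F_k + r`. -/
theorem zeck_add {k r : ℕ} (hk : 2 ≤ k) (hr : r < fib (k - 1)) :
    zeckendorf (fib k + r) = k :: zeckendorf r := by
  have hpos : 0 < fib k := fib_pos.2 (by omega)
  have hg : greatestFib (fib k + r) = k := by
    apply le_antisymm
    · rw [← Nat.lt_succ_iff, greatestFib_lt]
      have : fib (k + 1) = fib (k - 1) + fib k := fib_add_one (by omega)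
      rw [Nat.succ_eq_add_one]
      omega
    · rw [le_greatestFib]; omega
  rw [zeckendorf_of_pos (by omega), hg]
  congr 1
  congr 1
  omega

/-- The parity of the sum of digits of the Zeckendorf representation. -/
def s (n : ℕ) : Bool := (zeckendorf n).length.bodd

/-- Does the Zeckendorf representation of `n` use `F_2`? -/
def e (n : ℕ) : Bool := decide (2 ∈ zeckendorf n)

/-- The shift of the Zeckendorf representation. -/
def S (n : ℕ) : ℕ := ((zeckendorf n).map fun i => fib (i + 1)).sum

theorem exists_rep {n : ℕ} (hn : 0 < n) : ∃ k r, 2 ≤ k ∧ r < fib (k - 1) ∧ n = fib k + r := by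
  refine ⟨greatestFib n, n - fib (greatestFib n), ?_, ?_, ?_⟩
  · rw [le_greatestFib]; simpa using (Nat.succ_le_of_lt hn)
  · have h1 := lt_fib_greatestFib_add_one n
    have h2 : greatestFib n ≠ 0 := greatestFib_ne_zero.2 hn.ne'
    rw [fib_add_one h2] at h1
    have h3 := fib_greatestFib_le n
    omega
  · have h3 := fib_greatestFib_le n
    omega

theorem s_zero : s 0 = false := by simp [s]
theorem e_zero : e 0 = false := by simp [e]
theorem S_zero : S 0 = 0 := by simp [S]

theorem s_add {k r : ℕ} (hk : 2 ≤ k) (hr : r < fib (k - 1)) : s (fib k + r) = !(s r) := by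
  simp [s, zeck_add hk hr]

theorem e_add {k r : ℕ} (hk : 3 ≤ k) (hr : r < fib (k - 1)) : e (fib k + r) = e r := by
  simp only [e, zeck_add (by omega : 2 ≤ k) hr, List.mem_cons]
  have : ¬ (2 = k) := by omega
  simp [this]

theorem S_add {k r : ℕ} (hk : 2 ≤ k) (hr : r < fib (k - 1)) :
    S (fib k + r) = fib (k + 1) + S r := by
  simp [S, zeck_add hk hr]

theorem e_one : e 1 = true := by
  have h : zeckendorf (fib 2 + 0) = 2 :: zeckendorf 0 := zeck_add (by norm_num) (by norm_num)
  have h1 : fib 2 + 0 = 1 := rfl
  rw [h1] at h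
  rw [e, h]
  simp

theorem s_fib {k : ℕ} (hk : 2 ≤ k) : s (fib k) = true := by
  have := s_add hk (r := 0) (fib_pos.2 (by omega))
  simpa [s_zero] using this

theorem S_fib {k : ℕ} (hk : 2 ≤ k) : S (fib k) = fib (k + 1) := by
  have := S_add hk (r := 0) (fib_pos.2 (by omega))
  simpa [S_zero] using this

theorem S_one : S 1 = 2 := by
  have := S_fib (k := 2) le_rfl
  simpa [fib] using this

/-- The increments of the shift. -/
theorem S_succ : ∀ n, S (n + 1) = S n + if e n then 1 else 2 := by
  intro n
  induction n using Nat.strong_induction_on with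
  | _ n ih =>
    rcases Nat.eq_zero_or_pos n with rfl | hn
    · simp [e_zero, S_zero, S_one]
    obtain ⟨k, r, hk, hr, rfl⟩ := exists_rep hn
    rcases Nat.lt_or_ge 2 k with hk3 | hk2
    · -- k ≥ 3
      have hrn : r < fib k + r := by
        have : 0 < fib k := fib_pos.2 (by omega)
        omega
      have h1 := ih r hrn
      rw [S_add hk hr, e_add hk3 hr]
      rcases Nat.lt_or_ge (r + 1) (fib (k - 1)) with h2 | h2
      · rw [add_assoc, S_add hk h2, h1]; ring
      · have h3 : r + 1 = fib (k - 1) := by omega
        have h4 : fib k + r + 1 = fib (k + 1) := by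
          rw [fib_add_one (by omega : k ≠ 0)]; omega
        rw [h3, S_fib (by omega), show k - 1 + 1 = k by omega] at h1
        rw [h4, S_fib (by omega), show k + 1 + 1 = k + 2 by ring, fib_add_two]
        omega
    · have : k = 2 := by omega
      subst this
      have hr0 : r = 0 := by simpa [fib] using hr
      subst hr0
      have h3 : fib 2 + 0 = 1 := rfl
      rw [h3, e_one, S_one]
      have h4 : (1 + 1 : ℕ) = fib 3 := rfl
      rw [h4, S_fib (by norm_num)]
      rfl

theorem S_strictMono : StrictMono S := by
  apply strictMono_nat_of_lt_succ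
  intro n
  rw [S_succ]
  split_ifs <;> omega

theorem S_lt_fib {k r : ℕ} (hk : 2 ≤ k) (hr : r < fib (k - 1)) : S r < fib k := by
  rcases Nat.lt_or_ge 2 k with hk3 | hk2
  · have h1 := S_strictMono hr
    rwa [S_fib (by omega), show k - 1 + 1 = k by omega] at h1
  · have : k = 2 := by omega
    subst this
    have hr0 : r = 0 := by simpa [fib] using hr
    subst hr0
    rw [S_zero]; norm_num

theorem s_S_e_S : ∀ n, s (S n) = s n ∧ e (S n) = false ∧
    (e n = false → s (S n + 1) = !(s n) ∧ e (S n + 1) = true) := by
  intro n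
  induction n using Nat.strong_induction_on with
  | _ n ih =>
    rcases Nat.eq_zero_or_pos n with rfl | hn
    · refine ⟨by rw [S_zero], by rw [S_zero, e_zero], fun _ => ?_⟩
      rw [S_zero, s_zero]
      exact ⟨by simpa [fib] using s_fib (k := 2) le_rfl, e_one⟩
    obtain ⟨k, r, hk, hr, rfl⟩ := exists_rep hn
    have hrn : r < fib k + r := by
      have : 0 < fib k := fib_pos.2 (by omega)
      omega
    obtain ⟨h1, h2, h3⟩ := ih r hrn
    have hSr : S r < fib k := S_lt_fib hk hr
    have hSr' : S r < fib (k + 1 - 1) := by simpa using hSr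
    rw [S_add hk hr, s_add hk hr, s_add (by omega) hSr', e_add (by omega) hSr']
    refine ⟨by rw [h1], h2, fun he => ?_⟩
    rcases Nat.lt_or_ge 2 k with hk3 | hk2
    · rw [e_add hk3 hr] at he
      obtain ⟨h4, h5⟩ := h3 he
      have h6 : S (r + 1) ≤ fib k := by
        have := S_strictMono.monotone (show r + 1 ≤ fib (k - 1) by omega)
        rwa [S_fib (by omega), show k - 1 + 1 = k by omega] at this
      have h7 := S_succ r
      rw [he] at h7
      simp only [Bool.false_eq_true, if_false] at h7
      have h8 : S r + 1 < fib (k + 1 - 1) := by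
        rw [show k + 1 - 1 = k by omega]; omega
      rw [add_assoc, s_add (by omega) h8, e_add (by omega) h8, h4, h5]
      simp
    · exfalso
      have : k = 2 := by omega
      subst this
      have hr0 : r = 0 := by simpa [fib] using hr
      subst hr0
      have h3 : fib 2 + 0 = 1 := rfl
      rw [h3, e_one] at he
      exact Bool.noConfusion he

theorem s_S (n : ℕ) : s (S n) = s n := (s_S_e_S n).1
theorem e_S (n : ℕ) : e (S n) = false := (s_S_e_S n).2.1
theorem s_S_add_one {n : ℕ} (h : e n = false) : s (S n + 1) = !(s n) := ((s_S_e_S n).2.2 h).1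
theorem e_S_add_one {n : ℕ} (h : e n = false) : e (S n + 1) = true := ((s_S_e_S n).2.2 h).2

theorem S_succ_of_e_false {n : ℕ} (h : e n = false) : S (n + 1) = S n + 2 := by
  rw [S_succ, h]; rfl

theorem S_succ_of_e_true {n : ℕ} (h : e n = true) : S (n + 1) = S n + 1 := by
  rw [S_succ, h]; rfl

theorem le_S (n : ℕ) : n ≤ S n := S_strictMono.le_apply

/-- Block decomposition. -/
theorem block (m : ℕ) : (e m = false ∧ ∃ n, m = S n) ∨
    (e m = true ∧ ∃ n, e n = false ∧ m = S n + 1) := by
  obtain ⟨n, h1, h2⟩ : ∃ n, S n ≤ m ∧ m < S (n + 1) := by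
    classical
    refine ⟨Nat.findGreatest (fun n => S n ≤ m) m, ?_, ?_⟩
    · exact Nat.findGreatest_spec (P := fun n => S n ≤ m) (Nat.zero_le m) (by rw [S_zero]; omega)
    · by_contra h
      have h' : S (Nat.findGreatest (fun n => S n ≤ m) m + 1) ≤ m := not_lt.1 h
      have h3 := le_S (Nat.findGreatest (fun n => S n ≤ m) m + 1)
      exact Nat.findGreatest_is_greatest (P := fun n => S n ≤ m) (Nat.lt_succ_self _)
        (h3.trans h') h'
  rcases hen : e n with _ | _
  · rw [S_succ_of_e_false hen] at h2
    rcases Nat.lt_or_ge (S n) m with h3 | h3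
    · right
      have : m = S n + 1 := by omega
      exact ⟨by rw [this, e_S_add_one hen], n, hen, this⟩
    · left
      have : m = S n := by omega
      exact ⟨by rw [this, e_S], n, this⟩
  · rw [S_succ_of_e_true hen] at h2
    left
    have : m = S n := by omega
    exact ⟨by rw [this, e_S], n, this⟩

theorem exists_of_e_false {m : ℕ} (h : e m = false) : ∃ n, m = S n := by
  rcases block m with h1 | h1
  · exact h1.2
  · rw [h] at h1; exact absurd h1.1 (by simp)

theorem exists_of_e_true {m : ℕ} (h : e m = true) : ∃ n, e n = false ∧ m = S n + 1 := by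
  rcases block m with h1 | h1
  · rw [h] at h1; exact absurd h1.1 (by simp)
  · exact h1.2

/-- No two consecutive short letters. -/
theorem e_succ_of_e_true {m : ℕ} (h : e m = true) : e (m + 1) = false := by
  obtain ⟨n, hn, rfl⟩ := exists_of_e_true h
  rw [show S n + 1 + 1 = S (n + 1) by rw [S_succ_of_e_false hn], e_S]

theorem S_add_two (n : ℕ) : S n + 3 ≤ S (n + 2) := by
  rcases h : e n with _ | _
  · have h1 := S_succ_of_e_false h
    have h2 := S_strictMono (show n + 1 < n + 2 by omega)
    omega
  · have h1 := S_succ_of_e_true h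
    have h2 := S_succ_of_e_false (e_succ_of_e_true h)
    rw [show n + 1 + 1 = n + 2 by ring] at h2
    omega

theorem S_add_five (n : ℕ) : S n + 7 ≤ S (n + 5) := by
  have h1 := S_add_two n
  have h2 := S_add_two (n + 2)
  have h3 := S_strictMono (show n + 4 < n + 5 by omega)
  rw [show n + 2 + 2 = n + 4 by ring] at h2
  omega

/-! ### Sub-additivity of the shift up to one -/

/-- The discrepancy of the shift. -/
noncomputable def D (n : ℕ) : ℝ := (S n : ℝ) - Real.goldenRatio * n

theorem D_add {k r : ℕ} (hk : 2 ≤ k) (hr : r < fib (k - 1)) :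
    D (fib k + r) = Real.goldenConj ^ k + D r := by
  have h := Real.fib_succ_sub_goldenRatio_mul_fib k
  simp only [D, S_add hk hr]
  push_cast
  rw [← h]; ring

open scoped goldenRatio in
/-- Bounds for the discrepancy. -/
theorem D_bounds (k : ℕ) (hk : 2 ≤ k) : ∀ n < fib k,
    -(-ψ) ^ 2 + (-ψ) ^ k ≤ D n ∧ D n ≤ -ψ - (-ψ) ^ k := by
  have hu0 : 0 < -ψ := by have := Real.goldenConj_neg; linarith
  have hu1 : -ψ < 1 := by have := Real.neg_one_lt_goldenConj; linarith
  have hu2 : (-ψ) ^ 2 = 1 - (-ψ) := by
    have := Real.goldenConj_sq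
    rw [neg_sq, this]; ring
  set u : ℝ := -ψ with hu
  induction k using Nat.strong_induction_on with
  | _ k ih =>
    intro n hn
    rcases Nat.lt_or_ge 2 k with hk3 | hk2
    · obtain ⟨k, rfl⟩ : ∃ j, k = j + 1 := ⟨k - 1, by omega⟩
      have hk' : 2 ≤ k := by omega
      have hpk : 0 < u ^ k := by positivity
      have hpk1 : u ^ (k + 1) ≤ u ^ k := by
        rw [pow_succ]; nlinarith
      rcases Nat.lt_or_ge n (fib k) with h1 | h1
      · have := ih k (by omega) hk' n h1
        constructor <;> linarith [this.1, this.2]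
      · obtain ⟨r, rfl⟩ : ∃ r, n = fib k + r := ⟨n - fib k, by omega⟩
        have hr : r < fib (k - 1) := by
          rw [fib_add_one (by omega : k ≠ 0)] at hn
          omega
        have hψk : -(u ^ k) ≤ ψ ^ k ∧ ψ ^ k ≤ u ^ k := by
          have : |ψ ^ k| = u ^ k := by
            rw [abs_pow, abs_of_neg (by linarith : ψ < 0)]
          rw [← this]
          exact ⟨neg_abs_le _, le_abs_self _⟩
        rw [D_add hk' hr]
        rcases Nat.lt_or_ge 2 k with hk4 | hk4
        · have h2 := ih (k - 1) (by omega) (by omega) r hr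
          have h3 : u ^ (k - 1) - u ^ k = u ^ (k + 1) := by
            have e1 : u ^ k = u ^ (k - 1) * u := by
              rw [← pow_succ]; congr 1; omega
            have e2 : u ^ (k + 1) = u ^ (k - 1) * u ^ 2 := by
              rw [← pow_add]; congr 1; omega
            rw [e1, e2, hu2]; ring
          constructor <;> linarith [h2.1, h2.2, hψk.1, hψk.2]
        · have hk5 : k = 2 := by omega
          subst hk5
          have hr0 : r = 0 := by simpa [fib] using hr
          subst hr0
          have hD0 : D 0 = 0 := by simp [D, S_zero]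
          have hψ2 : ψ ^ 2 = u ^ 2 := by rw [hu]; ring
          rw [hD0, hψ2]
          have e3 : u ^ (2 + 1) = u * u ^ 2 := by ring
          rw [e3, hu2]
          constructor <;> nlinarith
    · have hk5 : k = 2 := by omega
      subst hk5
      have hn0 : n = 0 := by simpa [fib] using hn
      subst hn0
      have hD0 : D 0 = 0 := by simp [D, S_zero]
      rw [hD0, hu2]
      have hhalf : 1 / 2 < u := by
        by_contra hc
        push Not at hc
        nlinarith
      constructor <;> linarith

open scoped goldenRatio in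
theorem D_bounds' (n : ℕ) : -(-ψ) ^ 2 ≤ D n ∧ D n ≤ -ψ := by
  have hu0 : 0 < -ψ := by have := Real.goldenConj_neg; linarith
  have h := D_bounds (n + 2) (by omega) n (by
    rcases Nat.eq_zero_or_pos n with rfl | hn
    · norm_num
    · have h5 := Nat.le_fib_add_one (n + 1)
      have h6 : fib (n + 2) = fib n + fib (n + 1) := fib_add_two
      have h7 : 0 < fib n := fib_pos.2 hn
      omega)
  have h1 : 0 < (-ψ) ^ (n + 2) := by positivity
  constructor <;> linarith [h.1, h.2]

open scoped goldenRatio in
/-- Almost sub-additivity of the shift. -/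
theorem S_add_le (i m : ℕ) : S (i + m) ≤ S i + S m + 1 := by
  have hu0 : 0 < -ψ := by have := Real.goldenConj_neg; linarith
  have hu2 : (-ψ) ^ 2 = 1 - (-ψ) := by
    have := Real.goldenConj_sq
    rw [neg_sq, this]; ring
  have h1 := D_bounds' (i + m)
  have h2 := D_bounds' i
  have h3 := D_bounds' m
  have h4 : (S (i + m) : ℝ) - S i - S m = D (i + m) - D i - D m := by
    simp only [D]; push_cast; ring
  have h5 : (S (i + m) : ℝ) < S i + S m + 2 := by
    have : D (i + m) - D i - D m ≤ -ψ + 2 * (-ψ) ^ 2 := by linarith [h1.2, h2.1, h3.1]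
    rw [hu2] at this
    linarith
  have h6 : S (i + m) < S i + S m + 2 := by exact_mod_cast h5
  omega

end Pool.Agent.J6H89.Zeck
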