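import Pool.Agent.J6H89.Zeck.Table

/-!
# The long matches in the Zeckendorf parity sequence
-/

set_option autoImplicit false

open Nat

namespace Pool.Agent.J6H89.Zeck

/-- The list of the end positions of long matches. -/
def Lst (j a b : ℕ) : Prop :=
  (a = fib (j + 4) ∧ (b = fib (j + 4) + fib (j + 2) ∨ b = 2 * fib (j + 4))) ∨
    (a = fib (j + 2) ∧ b = fib (j + 5) + fib j)

instance (j a b : ℕ) : Decidable (Lst j a b) := by unfold Lst; infer_instance

/-- The statement on long matches. -/
def C (j : ℕ) : Prop := ∀ i i' m : ℕ, i < i' → i' + m < fib (j + 3) + fib (j + 5) →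
  (∀ t < m, x (i + t) = x (i' + t)) → x (i + m) ≠ x (i' + m) → fib (j + 2) ≤ m + 4 →
  Lst j (i + m) (i' + m)

/-- Does the match of length nine before `(a, b)` hold? -/
def back (a b : ℕ) : Bool := (List.range 9).all fun t => X (a - (t + 1)) == X (b - (t + 1))

theorem base_table : ∀ b < 76, ∀ a < b, 9 ≤ a → back a b = true → X a = X b ∨ Lst 5 a b := by
  decide +kernel

theorem C_base : C 5 := by
  intro i i' m hi hb hm hne hlen
  have h1 : fib (5 + 3) + fib (5 + 5) = 76 := by decide
  have h2 : fib (5 + 2) = 13 := by decide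
  rw [h1] at hb
  rw [h2] at hlen
  have hX : ∀ t, 1 ≤ t → t ≤ m → X (i + m - t) = X (i' + m - t) := by
    intro t ht1 ht2
    have := hm (m - t) (by omega)
    rwa [x_eq_X (by omega), x_eq_X (by omega), show i + (m - t) = i + m - t by omega,
      show i' + (m - t) = i' + m - t by omega] at this
  rcases base_table (i' + m) hb (i + m) (by omega) (by omega) (by
    rw [back, List.all_eq_true]
    intro t ht
    rw [List.mem_range] at ht
    rw [beq_iff_eq]
    exact hX (t + 1) (by omega) (by omega)) with h | h
  · exfalso
    apply hne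
    rw [x_eq_X (by omega), x_eq_X (by omega), h]
  · exact h

/-- Matches inflate. -/
theorem match_S {p p' q : ℕ} (h : ∀ t < q, x (p + t) = x (p' + t)) :
    S (p + q) - S p = S (p' + q) - S p' ∧
      ∀ u < S (p + q) - S p, x (S p + u) = x (S p' + u) := by
  induction q with
  | zero => simp
  | succ q ih =>
    obtain ⟨h1, h2⟩ := ih fun t ht => h t (by omega)
    have h3 := h q (by omega)
    have h4 := S_le_add p q
    have h5 := S_le_add p' q
    have hs : s (p + q) = s (p' + q) := congrArg Prod.fst h3
    have he : e (p + q) = e (p' + q) := congrArg Prod.snd h3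
    have hx0 : x (S p + (S (p + q) - S p)) = x (S p' + (S (p + q) - S p)) := by
      rw [show S p + (S (p + q) - S p) = S (p + q) by omega,
        show S p' + (S (p + q) - S p) = S (p' + q) by omega]
      simp only [x, s_S, e_S, hs]
    rcases h6 : e (p + q) with _ | _
    · have h7 : e (p' + q) = false := he ▸ h6
      have h8 := S_succ_of_e_false h6
      have h9 := S_succ_of_e_false h7
      rw [← add_assoc, ← add_assoc]
      refine ⟨by omega, fun u hu => ?_⟩
      rcases Nat.lt_trichotomy u (S (p + q) - S p) with h10 | h10 | h10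
      · exact h2 u h10
      · rw [h10]; exact hx0
      · have h11 : u = S (p + q) - S p + 1 := by omega
        rw [h11, show S p + (S (p + q) - S p + 1) = S (p + q) + 1 by omega,
          show S p' + (S (p + q) - S p + 1) = S (p' + q) + 1 by omega]
        simp only [x, s_S_add_one h6, e_S_add_one h6, s_S_add_one h7, e_S_add_one h7, hs]
    · have h7 : e (p' + q) = true := he ▸ h6
      have h8 := S_succ_of_e_true h6
      have h9 := S_succ_of_e_true h7
      rw [← add_assoc, ← add_assoc]
      refine ⟨by omega, fun u hu => ?_⟩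
      rcases Nat.lt_or_ge u (S (p + q) - S p) with h10 | h10
      · exact h2 u h10
      · have h11 : u = S (p + q) - S p := by omega
        rw [h11]; exact hx0

theorem Lst_step {j a b : ℕ} (hj : 2 ≤ j) (h : Lst j a b) :
    s a ≠ s b ∧ Lst (j + 1) (S a) (S b) := by
  have f3 : fib (j + 3) = fib (j + 1) + fib (j + 2) := fib_add_two
  have f4 : fib (j + 4) = fib (j + 2) + fib (j + 3) := fib_add_two
  have f5 : fib (j + 5) = fib (j + 3) + fib (j + 4) := fib_add_two
  have f6 : fib (j + 6) = fib (j + 4) + fib (j + 5) := fib_add_two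
  have p1 : 0 < fib (j + 1) := fib_pos.2 (by omega)
  have p2 : 0 < fib (j + 2) := fib_pos.2 (by omega)
  have p3 : 0 < fib j := fib_pos.2 (by omega)
  have f2 : fib (j + 2) = fib j + fib (j + 1) := fib_add_two
  rcases h with ⟨rfl, rfl | hb⟩ | ⟨rfl, rfl⟩
  · have h1 : fib (j + 2) < fib (j + 4 - 1) := by
      rw [show j + 4 - 1 = j + 3 by omega]; omega
    refine ⟨?_, Or.inl ⟨?_, Or.inl ?_⟩⟩
    · rw [s_fib (by omega), s_add (by omega) h1, s_fib (by omega)]; simp
    · rw [S_fib (by omega)]
    · rw [S_add (by omega) h1, S_fib (by omega)]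
  · have h1 : fib (j + 2) < fib (j + 5 - 1) := by
      rw [show j + 5 - 1 = j + 4 by omega]; omega
    have h2 : b = fib (j + 5) + fib (j + 2) := by omega
    subst h2
    refine ⟨?_, Or.inl ⟨?_, Or.inr ?_⟩⟩
    · rw [s_fib (by omega), s_add (by omega) h1, s_fib (by omega)]; simp
    · rw [S_fib (by omega)]
    · rw [S_add (by omega) h1, S_fib (by omega)]
      rw [show j + 5 + 1 = j + 6 by ring, show j + 2 + 1 = j + 3 by ring,
        show j + 1 + 4 = j + 5 by ring]
      omega
  · have h1 : fib j < fib (j + 5 - 1) := by
      rw [show j + 5 - 1 = j + 4 by omega]; omega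
    refine ⟨?_, Or.inr ⟨?_, ?_⟩⟩
    · rw [s_fib (by omega), s_add (by omega) h1, s_fib (by omega)]; simp
    · rw [S_fib (by omega)]
    · rw [S_add (by omega) h1, S_fib (by omega)]

theorem C_step {j : ℕ} (hj : 5 ≤ j) (hC : C j) : C (j + 1) := by
  intro i i' m hi hb hm hne hlen
  have f2 : fib (j + 2) = fib j + fib (j + 1) := fib_add_two
  have f3 : fib (j + 3) = fib (j + 1) + fib (j + 2) := fib_add_two
  have f4 : fib (j + 4) = fib (j + 2) + fib (j + 3) := fib_add_two
  have p0 : 5 ≤ fib j := by
    have h5 : fib 5 = 5 := by decide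
    have : fib 5 ≤ fib j := fib_mono hj
    rwa [h5] at this
  have p1 : 5 ≤ fib (j + 1) := by
    have h5 : fib 5 = 5 := by decide
    have : fib 5 ≤ fib (j + 1) := fib_mono (by omega)
    rwa [h5] at this
  rw [show j + 1 + 3 = j + 4 by ring, show j + 1 + 5 = j + 6 by ring] at hb
  rw [show j + 1 + 2 = j + 3 by ring] at hlen
  -- the blocks of the start points
  have hx0 := hm 0 (by omega)
  simp only [add_zero] at hx0
  have hs0 : s i = s i' := congrArg Prod.fst hx0
  have he0 : e i = e i' := congrArg Prod.snd hx0
  -- reduce to start points in the image of `S`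
  suffices H : ∀ p p' M : ℕ, p < p' → S p' + M < fib (j + 4) + fib (j + 6) →
      (∀ t < M, x (S p + t) = x (S p' + t)) → x (S p + M) ≠ x (S p' + M) →
      fib (j + 3) ≤ M + 4 → Lst (j + 1) (S p + M) (S p' + M) by
    rcases hei : e i with _ | _
    · obtain ⟨p, rfl⟩ := exists_of_e_false hei
      obtain ⟨p', rfl⟩ := exists_of_e_false (he0 ▸ hei)
      exact H p p' m (S_strictMono.lt_iff_lt.1 hi) hb hm hne hlen
    · obtain ⟨p, hp, rfl⟩ := exists_of_e_true hei
      obtain ⟨p', hp', rfl⟩ := exists_of_e_true (he0 ▸ hei)
      have h1 := H p p' (m + 1) (S_strictMono.lt_iff_lt.1 (by omega)) (by omega) (by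
        intro t ht
        rcases Nat.eq_zero_or_pos t with rfl | ht0
        · rw [s_S_add_one hp, s_S_add_one hp'] at hs0
          simp only [add_zero, x, s_S, e_S]
          rw [Bool.not_inj hs0]
        · have := hm (t - 1) (by omega)
          rwa [show S p + 1 + (t - 1) = S p + t by omega,
            show S p' + 1 + (t - 1) = S p' + t by omega] at this) (by
        rwa [show S p + (m + 1) = S p + 1 + m by ring,
          show S p' + (m + 1) = S p' + 1 + m by ring]) (by omega)
      rwa [show S p + (m + 1) = S p + 1 + m by ring,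
          show S p' + (m + 1) = S p' + 1 + m by ring] at h1
  clear hb hm hne hlen hx0 hs0 he0 hi
  intro p p' m hpp hb hm hne hlen
  -- the first mismatch of the desubstituted words
  have hex : ∃ t, x (p + t) ≠ x (p' + t) := by
    by_contra hcon
    push Not at hcon
    have h1 := (match_S (p := p) (p' := p') (q := m + 1) fun t _ => hcon t).2
    apply hne
    apply h1
    have := S_strictMono.add_le_nat (m + 1) p
    rw [add_comm (m + 1) p] at this
    omega
  classical
  obtain ⟨q, hq, hqmin⟩ : ∃ q, x (p + q) ≠ x (p' + q) ∧ ∀ t < q, x (p + t) = x (p' + t) := by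
    refine ⟨Nat.find hex, Nat.find_spec hex, fun t ht => ?_⟩
    have := Nat.find_min hex ht
    exact not_not.1 this
  obtain ⟨hA, hAm⟩ := match_S hqmin
  have h1 := S_le_add p q
  have h2 := S_le_add p' q
  have hsub := S_add_le p q
  -- `m ≥ A`
  have hmA : S (p + q) - S p ≤ m := by
    by_contra hcon
    exact hne (hAm m (by omega))
  have hcase : m = S (p + q) - S p ∨ (s (p + q) = s (p' + q) ∧ m = S (p + q) - S p + 1) := by
    by_cases hs : s (p + q) = s (p' + q)
    · right
      refine ⟨hs, ?_⟩
      have he : e (p + q) ≠ e (p' + q) := by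
        intro he
        apply hq
        rw [x, x, hs, he]
      have h3 : m ≠ S (p + q) - S p := by
        intro h4
        apply hne
        rw [h4, show S p + (S (p + q) - S p) = S (p + q) by omega,
          show S p' + (S (p + q) - S p) = S (p' + q) by omega, x, x, s_S, s_S, e_S, e_S, hs]
      have h5 : ¬ (S (p + q) - S p + 1 < m) := by
        intro h6
        have h7 := hm _ h6
        rw [show S p + (S (p + q) - S p + 1) = S (p + q) + 1 by omega,
          show S p' + (S (p + q) - S p + 1) = S (p' + q) + 1 by omega] at h7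
        have h8 : e (S (p + q) + 1) = e (S (p' + q) + 1) := congrArg Prod.snd h7
        have key : ∀ n, e (S n + 1) = !(e n) := by
          intro n
          rcases hn : e n with _ | _
          · rw [e_S_add_one hn]; rfl
          · rw [← S_succ_of_e_true hn, e_S]; rfl
        rw [key, key] at h8
        exact he (Bool.not_inj h8)
      omega
    · left
      have h5 : ¬ (S (p + q) - S p < m) := by
        intro h6
        have h7 := hm _ h6
        rw [show S p + (S (p + q) - S p) = S (p + q) by omega,
          show S p' + (S (p + q) - S p) = S (p' + q) by omega] at h7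
        have h8 : s (S (p + q)) = s (S (p' + q)) := congrArg Prod.fst h7
        rw [s_S, s_S] at h8
        exact hs h8
      omega
  have hlen' : fib (j + 2) ≤ q + 4 := by
    by_contra hcon
    have h3 : q + 5 ≤ fib (j + 2) := by omega
    have h4 := S_strictMono.monotone h3
    rw [S_fib (by omega)] at h4
    have h5 := S_add_five q
    rw [show j + 2 + 1 = j + 3 by ring] at h4
    rcases hcase with h6 | ⟨_, h6⟩ <;> omega
  have hb' : p' + q < fib (j + 3) + fib (j + 5) := by
    rw [← S_strictMono.lt_iff_lt]
    have h3 : fib (j + 3) < fib (j + 5 - 1) := by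
      rw [show j + 5 - 1 = j + 4 by omega]; omega
    rw [add_comm (fib (j + 3)), S_add (by omega) h3, S_fib (by omega),
      show j + 5 + 1 = j + 6 by ring, show j + 3 + 1 = j + 4 by ring]
    rcases hcase with h6 | ⟨_, h6⟩ <;> omega
  have hL := hC p p' q hpp hb' hqmin hq hlen'
  obtain ⟨hs, hL'⟩ := Lst_step (by omega) hL
  rcases hcase with h6 | ⟨h6, _⟩
  · rw [h6, show S p + (S (p + q) - S p) = S (p + q) by omega,
      show S p' + (S (p + q) - S p) = S (p' + q) by omega]
    exact hL'
  · exact absurd h6 hs

theorem C_all : ∀ j, 5 ≤ j → C j := by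
  intro j hj
  induction j, hj using Nat.le_induction with
  | base => exact C_base
  | succ j hj ih => exact C_step hj ih

end Pool.Agent.J6H89.Zeck
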