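import Pool.Agent.J6H89.Zeck.Match

/-!
# The maximum order complexity of the Zeckendorf parity sequence
-/

set_option autoImplicit false

open Nat

namespace Pool.Agent.J6H89.Zeck

/-- `k` is an admissible order for the first `N` terms of `a`: equal words of length `k`
have equal successors. -/
def Good (a : ℕ → Bool) (k N : ℕ) : Prop :=
  ∀ i i', i + k < N → i' + k < N → (∀ t < k, a (i + t) = a (i' + t)) → a (i + k) = a (i' + k)

theorem Good.succ {a : ℕ → Bool} {k N : ℕ} (h : Good a k N) : Good a (k + 1) N := by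
  intro i i' hi hi' hm
  have := h (i + 1) (i' + 1) (by omega) (by omega) (by
    intro t ht
    have := hm (t + 1) (by omega)
    rwa [show i + 1 + t = i + (t + 1) by ring, show i' + 1 + t = i' + (t + 1) by ring])
  rwa [show i + 1 + k = i + (k + 1) by ring, show i' + 1 + k = i' + (k + 1) by ring] at this

theorem Good.mono {a : ℕ → Bool} {k l N : ℕ} (h : Good a k N) (hkl : k ≤ l) : Good a l N := by
  induction l, hkl using Nat.le_induction with
  | base => exact h
  | succ l _ ih => exact ih.succ

theorem Good.anti {a : ℕ → Bool} {k N N' : ℕ} (h : Good a k N) (hN : N' ≤ N) : Good a k N' :=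
  fun i i' hi hi' hm => h i i' (by omega) (by omega) hm

/-! ### Values just below the Fibonacci numbers -/

theorem s_fib_pred {k : ℕ} (hk : 1 ≤ k) : s (fib (k + 2) - 1) = !(s (fib k - 1)) := by
  have h1 : fib (k + 2) = fib k + fib (k + 1) := fib_add_two
  have h2 : 0 < fib k := fib_pos.2 (by omega)
  rw [show fib (k + 2) - 1 = fib (k + 1) + (fib k - 1) by omega]
  apply s_add (by omega)
  rw [show k + 1 - 1 = k by omega]; omega

theorem e_fib_pred {k : ℕ} (hk : 2 ≤ k) : e (fib (k + 2) - 1) = e (fib k - 1) := by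
  have h1 : fib (k + 2) = fib k + fib (k + 1) := fib_add_two
  have h2 : 0 < fib k := fib_pos.2 (by omega)
  rw [show fib (k + 2) - 1 = fib (k + 1) + (fib k - 1) by omega]
  apply e_add (by omega)
  rw [show k + 1 - 1 = k by omega]; omega

theorem e_fib_pred_ne : ∀ k, 2 ≤ k → e (fib k - 1) ≠ e (fib (k + 1) - 1) := by
  intro k hk
  induction k, hk using Nat.le_induction with
  | base =>
    have h1 : fib 2 - 1 = 0 := rfl
    have h2 : fib (2 + 1) - 1 = 1 := rfl
    rw [h1, h2, e_zero, e_one]; simp
  | succ k hk ih =>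
    rw [show k + 1 + 1 = k + 2 by ring, e_fib_pred hk]
    exact ih.symm

theorem s_fib_pred_eq : ∀ k, 1 ≤ k →
    (s (fib k - 1) = s (fib (k + 1) - 1) ↔ k % 2 = 1) := by
  intro k hk
  induction k, hk using Nat.le_induction with
  | base =>
    have h1 : fib 1 - 1 = 0 := rfl
    have h2 : fib (1 + 1) - 1 = 0 := rfl
    rw [h1, h2]; simp
  | succ k hk ih =>
    rw [show k + 1 + 1 = k + 2 by ring, s_fib_pred hk]
    cases h1 : s (fib k - 1) <;> cases h2 : s (fib (k + 1) - 1) <;> simp [h1, h2] at ih ⊢ <;> omega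

/-! ### The upper bound -/

/-- Do the parities match on the `m` positions before `(a, b)`? -/
def backs (m a b : ℕ) : Bool :=
  (List.range m).all fun t => (X (a - (t + 1))).1 == (X (b - (t + 1))).1

/-- The finite check for small `k`. -/
def smallChk (k : ℕ) : Bool :=
  (List.range (fib k + fib (k + 2))).all fun b => (List.range b).all fun a =>
    !(decide (fib (k - 1) + 1 + k % 2 ≤ a)) || !(backs (fib (k - 1) + 1 + k % 2) a b) ||
      ((X a).1 == (X b).1)

theorem smallChk_true : ∀ k < 8, 3 ≤ k → smallChk k = true := by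
  decide +kernel

theorem small_table {k : ℕ} (hk8 : k < 8) (hk : 3 ≤ k) : ∀ b < fib k + fib (k + 2), ∀ a < b,
    fib (k - 1) + 1 + k % 2 ≤ a → backs (fib (k - 1) + 1 + k % 2) a b = true →
      (X a).1 = (X b).1 := by
  intro b hb a hab h1 h2
  have h := smallChk_true k hk8 hk
  rw [smallChk, List.all_eq_true] at h
  have h3 := h b (List.mem_range.2 hb)
  rw [List.all_eq_true] at h3
  have h4 := h3 a (List.mem_range.2 hab)
  simpa [h1, h2] using h4

theorem good_small {k : ℕ} (hk : 3 ≤ k) (hk8 : k < 8) :
    Good s (fib (k - 1) + 1 + k % 2) (fib k + fib (k + 2)) := by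
  have key : ∀ i i', i < i' → i' + (fib (k - 1) + 1 + k % 2) < fib k + fib (k + 2) →
      (∀ t < fib (k - 1) + 1 + k % 2, s (i + t) = s (i' + t)) →
      s (i + (fib (k - 1) + 1 + k % 2)) = s (i' + (fib (k - 1) + 1 + k % 2)) := by
    intro i i' hi hb hm
    have h76 : fib k + fib (k + 2) ≤ 76 := by
      have h1 : fib k ≤ fib 7 := fib_mono (by omega)
      have h2 : fib (k + 2) ≤ fib 9 := fib_mono (by omega)
      have h3 : fib 7 = 13 := by decide
      have h4 : fib 9 = 34 := by decide
      omega
    have h := small_table hk8 hk _ hb (i + (fib (k - 1) + 1 + k % 2)) (by omega) (by omega) (by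
      rw [backs, List.all_eq_true]
      intro t ht
      rw [List.mem_range] at ht
      rw [beq_iff_eq, ← s_eq_X (by omega), ← s_eq_X (by omega)]
      have := hm (fib (k - 1) + 1 + k % 2 - (t + 1)) (by omega)
      rwa [show i + (fib (k - 1) + 1 + k % 2 - (t + 1)) =
          i + (fib (k - 1) + 1 + k % 2) - (t + 1) by omega,
        show i' + (fib (k - 1) + 1 + k % 2 - (t + 1)) =
          i' + (fib (k - 1) + 1 + k % 2) - (t + 1) by omega] at this)
    rwa [← s_eq_X (by omega), ← s_eq_X (by omega)] at h
  intro i i' hi hi' hm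
  rcases Nat.lt_trichotomy i i' with h | h | h
  · exact key i i' h hi' hm
  · rw [h]
  · exact (key i' i h hi fun t ht => (hm t ht).symm).symm

theorem good_large {j : ℕ} (hj : 5 ≤ j) :
    Good s (fib (j + 2) + 1 + (j + 1) % 2) (fib (j + 3) + fib (j + 5)) := by
  have f3 : fib (j + 3) = fib (j + 1) + fib (j + 2) := fib_add_two
  have f4 : fib (j + 4) = fib (j + 2) + fib (j + 3) := fib_add_two
  have f5 : fib (j + 5) = fib (j + 3) + fib (j + 4) := fib_add_two
  have p2 : 13 ≤ fib (j + 2) := by
    have h7 : fib 7 = 13 := by decide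
    have : fib 7 ≤ fib (j + 2) := fib_mono (by omega)
    rwa [h7] at this
  have key : ∀ i i', i < i' → i' + (fib (j + 2) + 1 + (j + 1) % 2) < fib (j + 3) + fib (j + 5) →
      (∀ t < fib (j + 2) + 1 + (j + 1) % 2, s (i + t) = s (i' + t)) →
      s (i + (fib (j + 2) + 1 + (j + 1) % 2)) = s (i' + (fib (j + 2) + 1 + (j + 1) % 2)) := by
    intro i i' hi hb hm
    by_contra hne
    set m := fib (j + 2) + 1 + (j + 1) % 2 with hmdef
    have he := match_e (by omega) hm
    have hL := C_all j hj (i + 1) (i' + 1) (m - 1) (by omega) (by omega) (by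
      intro t ht
      have h1 := hm (t + 1) (by omega)
      have h2 := he (t + 1) (by omega) (by omega)
      rw [show i + 1 + t = i + (t + 1) by ring, show i' + 1 + t = i' + (t + 1) by ring, x, x,
        h1, h2]) (by
      intro h1
      apply hne
      rw [show i + 1 + (m - 1) = i + m by omega, show i' + 1 + (m - 1) = i' + m by omega] at h1
      exact congrArg Prod.fst h1) (by omega)
    rw [show i + 1 + (m - 1) = i + m by omega, show i' + 1 + (m - 1) = i' + m by omega] at hL
    have hpar := s_fib_pred_eq (j + 3) (by omega)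
    rcases hL with ⟨ha, hb1 | hb1⟩ | ⟨ha, _⟩
    · -- b = F_{k+1} + F_{k-1}
      rcases Nat.mod_two_eq_zero_or_one (j + 1) with h2 | h2
      · -- k = j + 3 even
        have h3 := hm 0 (by omega)
        rw [add_zero, add_zero, show i = fib (j + 3) - 1 by omega,
          show i' = fib (j + 3 + 1) - 1 by
            rw [show j + 3 + 1 = j + 4 by ring]; omega] at h3
        have := hpar.1 h3
        omega
      · have h3 := he 1 le_rfl (by omega)
        rw [show i + 1 = fib (j + 3) - 1 by omega,
          show i' + 1 = fib (j + 3 + 1) - 1 by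
            rw [show j + 3 + 1 = j + 4 by ring]; omega] at h3
        exact e_fib_pred_ne (j + 3) (by omega) h3
    · have h3 := hm ((j + 1) % 2) (by omega)
      rw [show i + (j + 1) % 2 = fib (j + 3) - 1 by omega,
        show i' + (j + 1) % 2 = fib (j + 3 + 2) - 1 by
          rw [show j + 3 + 2 = j + 5 by ring]; omega, s_fib_pred (k := j + 3) (by omega)] at h3
      cases h : s (fib (j + 3) - 1) <;> simp [h] at h3
    · omega
  intro i i' hi hi' hm
  rcases Nat.lt_trichotomy i i' with h | h | h
  · exact key i i' h hi' hm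
  · rw [h]
  · exact (key i' i h hi fun t ht => (hm t ht).symm).symm

theorem good {k : ℕ} (hk : 3 ≤ k) :
    Good s (fib (k - 1) + 1 + k % 2) (fib k + fib (k + 2)) := by
  rcases Nat.lt_or_ge k 8 with h | h
  · exact good_small hk h
  · obtain ⟨j, rfl⟩ : ∃ j, k = j + 3 := ⟨k - 3, by omega⟩
    have := good_large (j := j) (by omega)
    rwa [show j + 3 - 1 = j + 2 by omega, show j + 3 + 2 = j + 5 by ring,
      show (j + 3) % 2 = (j + 1) % 2 by omega]

/-! ### The lower bound -/

theorem not_good {k : ℕ} (hk : 3 ≤ k) :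
    ¬ Good s (fib (k - 1) + k % 2) (fib (k - 1) + fib (k + 1) + 1) := by
  intro h
  obtain ⟨k, rfl⟩ : ∃ j, k = j + 1 := ⟨k - 1, by omega⟩
  rw [show k + 1 - 1 = k by omega, show k + 1 + 1 = k + 2 by ring] at h
  have f2 : fib (k + 2) = fib k + fib (k + 1) := fib_add_two
  have f1 : fib (k + 1) = fib (k - 1) + fib k := fib_add_one (by omega)
  have p0 : 0 < fib k := fib_pos.2 (by omega)
  have p1 : 0 < fib (k - 1) := fib_pos.2 (by omega)
  have hpar := s_fib_pred_eq (k + 1) (by omega)
  rw [show k + 1 + 1 = k + 2 by ring] at hpar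
  have h1 := h (fib (k + 1) - (k + 1) % 2) (fib (k + 2) - (k + 1) % 2) (by omega) (by omega) (by
    intro t ht
    rcases Nat.lt_or_ge t ((k + 1) % 2) with h2 | h2
    · have h3 : (k + 1) % 2 = 1 := by omega
      have h4 : t = 0 := by omega
      rw [h3, h4, add_zero, add_zero]
      exact hpar.2 h3
    · obtain ⟨r, rfl⟩ : ∃ r, t = (k + 1) % 2 + r := ⟨t - (k + 1) % 2, by omega⟩
      rw [show fib (k + 1) - (k + 1) % 2 + ((k + 1) % 2 + r) = fib (k + 1) + r by omega,
        show fib (k + 2) - (k + 1) % 2 + ((k + 1) % 2 + r) = fib (k + 2) + r by omega,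
        s_add (by omega) (by rw [show k + 1 - 1 = k by omega]; omega),
        s_add (by omega) (by rw [show k + 2 - 1 = k + 1 by omega]; omega)])
  rw [show fib (k + 1) - (k + 1) % 2 + (fib k + (k + 1) % 2) = fib (k + 2) by omega,
    show fib (k + 2) - (k + 1) % 2 + (fib k + (k + 1) % 2) = fib (k + 2) + fib k by omega,
    s_fib (by omega), s_add (by omega) (by rw [show k + 2 - 1 = k + 1 by omega]; omega),
    s_fib (by omega)] at h1
  simp at h1

end Pool.Agent.J6H89.Zeck
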