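import Pool.Agent.J6H89.Zeck.Basic

/-!
# Evaluation of the parity sequence, and its factors of length five
-/

set_option autoImplicit false

open Nat

namespace Pool.Agent.J6H89.Zeck

/-- The pair of the parity and the last digit. -/
def x (n : ℕ) : Bool × Bool := (s n, e n)

/-- A computable form of `x`. -/
def xs : ℕ → ℕ → Bool × Bool
  | 0, _ => (false, false)
  | k + 1, n =>
    if n < fib (k + 2) then xs k n
    else if k = 0 then (true, true)
    else (!(xs k (n - fib (k + 2))).1, (xs k (n - fib (k + 2))).2)

theorem xs_eq : ∀ k n, n < fib (k + 2) → xs k n = x n := by
  intro k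
  induction k with
  | zero =>
    intro n hn
    have : n = 0 := by simpa [fib] using hn
    subst this
    simp [xs, x, s_zero, e_zero]
  | succ k ih =>
    intro n hn
    rw [xs]
    split_ifs with h1 h2
    · exact ih n h1
    · subst h2
      have h3 : fib (0 + 1 + 2) = 2 := rfl
      have h4 : fib (0 + 2) = 1 := rfl
      have : n = 1 := by omega
      subst this
      rw [x, e_one]
      have := s_fib (k := 2) le_rfl
      rw [show fib 2 = 1 from rfl] at this
      rw [this]
    · have h5 : fib (k + 1 + 2) = fib (k + 1) + fib (k + 2) := fib_add_two
      have h6 : fib (k + 1) ≤ fib (k + 2) := fib_le_fib_succ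
      have h7 : n = fib (k + 2) + (n - fib (k + 2)) := by omega
      have h8 : n - fib (k + 2) < fib (k + 2 - 1) := by
        rw [show k + 2 - 1 = k + 1 by omega]; omega
      rw [ih _ (by omega), x, x]
      conv_rhs => rw [h7]
      rw [s_add (by omega) h8, e_add (by omega) h8]

/-- The bits of `s` on `[0, 76)`. -/
def T1 : ℕ := 13713467404438824694062
/-- The bits of `e` on `[0, 76)`. -/
def T2 : ℕ := 24371114903783340659282

/-- The table form of `x`. -/
def X (n : ℕ) : Bool × Bool := (T1.testBit n, T2.testBit n)

theorem xs_table : ∀ n < 76, xs 9 n = X n := by decide +kernel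

theorem x_eq_X {n : ℕ} (hn : n < 76) : x n = X n := by
  rw [← xs_table n hn, xs_eq 9 n (lt_of_lt_of_le hn (by decide))]

theorem s_eq_X {n : ℕ} (hn : n < 76) : s n = (X n).1 := by
  rw [← x_eq_X hn, x]

/-! ### Inflation -/

/-- The inflation of a letter. -/
def infl (a : Bool × Bool) : List (Bool × Bool) :=
  if a.2 then [(a.1, false)] else [(a.1, false), (!a.1, true)]

/-- The factor of length `L` at `n`. -/
def w (n L : ℕ) : List (Bool × Bool) := (List.range L).map fun t => x (n + t)

theorem w_length (n L : ℕ) : (w n L).length = L := by simp [w]

theorem w_succ (n L : ℕ) : w n (L + 1) = w n L ++ [x (n + L)] := by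
  simp [w, List.range_succ]

theorem w_add (n L M : ℕ) : w n (L + M) = w n L ++ w (n + L) M := by
  induction M with
  | zero => simp [w]
  | succ M ih =>
    rw [← add_assoc, w_succ, ih, w_succ, List.append_assoc, add_assoc]

theorem S_le_add (u L : ℕ) : S u ≤ S (u + L) := S_strictMono.monotone (by omega)

theorem infl_w (u L : ℕ) : (w u L).flatMap infl = w (S u) (S (u + L) - S u) := by
  induction L with
  | zero => simp [w]
  | succ L ih =>
    rw [w_succ, List.flatMap_append, ih]
    have h1 := S_le_add u L
    rcases h : e (u + L) with _ | _
    · have h2 := S_succ_of_e_false h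
      rw [show S (u + (L + 1)) - S u = (S (u + L) - S u) + 2 by
        rw [← add_assoc]; omega, w_add]
      congr 1
      rw [show S u + (S (u + L) - S u) = S (u + L) by omega]
      simp [w, x, infl, h, List.range_succ, s_S, e_S, s_S_add_one h, e_S_add_one h]
    · have h2 := S_succ_of_e_true h
      rw [show S (u + (L + 1)) - S u = (S (u + L) - S u) + 1 by
        rw [← add_assoc]; omega, w_add]
      congr 1
      rw [show S u + (S (u + L) - S u) = S (u + L) by omega]
      simp [w, x, infl, h, List.range_succ, s_S, e_S]

theorem take_drop_w (n L d k : ℕ) (h : d + k ≤ L) : ((w n L).drop d).take k = w (n + d) k := by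
  obtain ⟨r, rfl⟩ : ∃ r, L = d + k + r := ⟨L - (d + k), by omega⟩
  rw [w_add, w_add, List.append_assoc, List.drop_append_of_le_length (by rw [w_length])]
  have h1 : (w n d).drop d = [] := by
    apply List.drop_eq_nil_of_le; rw [w_length]
  rw [h1, List.nil_append, List.take_append_of_le_length (by rw [w_length])]
  apply List.take_of_length_le
  rw [w_length]

/-- The factors of length five. -/
def facs : List (List (Bool × Bool)) := [
  [(false, false), (true, true), (true, false), (true, false), (false, true)],
  [(true, true), (true, false), (true, false), (false, true), (true, false)],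
  [(true, false), (true, false), (false, true), (true, false), (false, true)],
  [(true, false), (false, true), (true, false), (false, true), (false, false)],
  [(false, true), (true, false), (false, true), (false, false), (true, false)],
  [(true, false), (false, true), (false, false), (true, false), (false, true)],
  [(false, true), (false, false), (true, false), (false, true), (false, false)],
  [(false, false), (true, false), (false, true), (false, false), (false, false)],
  [(true, false), (false, true), (false, false), (false, false), (true, true)],
  [(false, true), (false, false), (false, false), (true, true), (true, false)],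
  [(false, false), (false, false), (true, true), (true, false), (false, true)],
  [(false, false), (true, true), (true, false), (false, true), (false, false)],
  [(true, true), (true, false), (false, true), (false, false), (false, false)],
  [(false, true), (false, false), (false, false), (true, true), (false, false)],
  [(false, false), (false, false), (true, true), (false, false), (true, true)],
  [(false, false), (true, true), (false, false), (true, true), (true, false)],
  [(true, true), (false, false), (true, true), (true, false), (true, false)],
  [(true, true), (true, false), (true, false), (false, true), (false, false)],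
  [(true, false), (true, false), (false, true), (false, false), (false, false)],
  [(true, true), (false, false), (true, true), (true, false), (false, false)],
  [(false, false), (true, true), (true, false), (false, false), (true, true)],
  [(true, true), (true, false), (false, false), (true, true), (true, false)],
  [(true, false), (false, false), (true, true), (true, false), (true, false)],
  [(false, true), (true, false), (false, true), (false, false), (false, false)],
  [(true, false), (true, false), (false, true), (false, false), (true, true)],
  [(true, false), (false, true), (false, false), (true, true), (true, false)],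
  [(false, true), (false, false), (true, true), (true, false), (true, false)],
  [(false, false), (false, false), (true, true), (true, false), (true, false)]]

theorem facs_closed : ∀ u ∈ facs, (u.flatMap infl).take 5 ∈ facs ∧
    ((u.flatMap infl).drop 1).take 5 ∈ facs := by decide +kernel

theorem w_mem_facs : ∀ n, w n 5 ∈ facs := by
  intro n
  induction n using Nat.strong_induction_on with
  | _ n ih =>
    rcases Nat.eq_zero_or_pos n with rfl | hn
    · have : w 0 5 = [x 0, x 1, x 2, x 3, x 4] := by
        simp [w, List.range_succ]
      rw [this, x_eq_X (by norm_num), x_eq_X (by norm_num), x_eq_X (by norm_num),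
        x_eq_X (by norm_num), x_eq_X (by norm_num)]
      decide +kernel
    · have key : ∀ u, ∀ d ≤ 1, u < n → n = S u + d → w n 5 ∈ facs := by
        intro u d hd hu hnu
        have h1 := infl_w u 5
        have h2 := S_add_five u
        have h3 := take_drop_w (S u) (S (u + 5) - S u) d 5 (by omega)
        have h4 := facs_closed _ (ih u hu)
        rw [hnu, ← h3, ← h1]
        interval_cases d
        · simpa using h4.1
        · exact h4.2
      have hS : ∀ u, 0 < u → u < S u := by
        intro u hu
        have h5 := S_strictMono.add_le_nat (u - 1) 1
        rw [S_one, show u - 1 + 1 = u by omega] at h5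
        omega
      rcases block n with ⟨_, u, hu⟩ | ⟨_, u, _, hu⟩
      · have hu0 : 0 < u := by
          rcases Nat.eq_zero_or_pos u with rfl | h
          · rw [S_zero] at hu; omega
          · exact h
        have := hS u hu0
        exact key u 0 (by omega) (by omega) (by omega)
      · have := le_S u
        exact key u 1 le_rfl (by omega) (by omega)

theorem facs_det : ∀ u ∈ facs, ∀ v ∈ facs, u.map Prod.fst = v.map Prod.fst →
    u.getLast? = v.getLast? := by decide +kernel

/-- The last digit is determined by five consecutive values of the parity. -/
theorem e_det {p q : ℕ} (h : ∀ t < 5, s (p + t) = s (q + t)) : e (p + 4) = e (q + 4) := by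
  have h1 := facs_det _ (w_mem_facs p) _ (w_mem_facs q) (by
    simp only [w, List.map_map]
    apply List.map_congr_left
    intro t ht
    simpa [x] using h t (by simpa using ht))
  rw [show (5 : ℕ) = 4 + 1 by norm_num, w_succ p 4, w_succ q 4, List.getLast?_concat,
    List.getLast?_concat] at h1
  simp only [x, Option.some.injEq, Prod.mk.injEq] at h1
  exact h1.2

theorem one_le_of_e_true {p : ℕ} (h : e p = true) : 1 ≤ p ∧ s (p - 1) = !(s p) := by
  obtain ⟨n, hn, rfl⟩ := exists_of_e_true h
  refine ⟨by omega, ?_⟩
  rw [show S n + 1 - 1 = S n by omega, s_S_add_one hn, s_S]
  simp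

theorem one_le_of_e_false {q : ℕ} (h : e q = false) (h' : e (q + 1) = false) :
    1 ≤ q ∧ s (q - 1) = s q := by
  obtain ⟨n, rfl⟩ := exists_of_e_false h
  have hn : e n = true := by
    rcases hn : e n with _ | _
    · rw [e_S_add_one hn] at h'; exact absurd h' (by simp)
    · rfl
  obtain ⟨u, hu, rfl⟩ := exists_of_e_true hn
  have h1 := S_succ_of_e_false (e_S u)
  refine ⟨by omega, ?_⟩
  rw [show S (S u + 1) - 1 = S (S u) + 1 by omega, s_S_add_one (e_S u), s_S (S u + 1),
    s_S_add_one hu, s_S]

/-- Extension of a match to the left. -/
theorem e_left {p q : ℕ} (hs : s p = s q) (he : e (p + 1) = e (q + 1))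
    (hs' : s (p - 1) = s (q - 1)) : e p = e q := by
  have key : ∀ a b : ℕ, s a = s b → e (a + 1) = e (b + 1) → s (a - 1) = s (b - 1) →
      e a = true → e b = false → False := by
    intro a b h1 h2 h3 h4 h5
    have h6 := e_succ_of_e_true h4
    have h7 := one_le_of_e_true h4
    have h8 := one_le_of_e_false h5 (by rw [← h2, h6])
    rw [h7.2, h8.2, h1] at h3
    cases hb : s b <;> simp [hb] at h3
  rcases hp : e p with _ | _ <;> rcases hq : e q with _ | _
  · rfl
  · exact (key q p hs.symm he.symm hs'.symm hq hp).elim
  · exact (key p q hs he hs' hp hq).elim
  · rfl

/-- A match of parities gives a match of the pairs, away from the left end. -/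
theorem match_e {i i' m : ℕ} (hm : 5 ≤ m) (h : ∀ t < m, s (i + t) = s (i' + t)) :
    ∀ t, 1 ≤ t → t < m → e (i + t) = e (i' + t) := by
  have h4 : ∀ t, 4 ≤ t → t < m → e (i + t) = e (i' + t) := by
    intro t ht1 ht2
    have := e_det (p := i + (t - 4)) (q := i' + (t - 4)) (by
      intro r hr
      have := h (t - 4 + r) (by omega)
      rwa [← add_assoc, ← add_assoc] at this)
    rwa [show i + (t - 4) + 4 = i + t by omega, show i' + (t - 4) + 4 = i' + t by omega] at this
  have step : ∀ t, 1 ≤ t → t < m → e (i + (t + 1)) = e (i' + (t + 1)) →
      e (i + t) = e (i' + t) := by
    intro t ht1 ht2 h5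
    apply e_left (h t ht2) h5
    have := h (t - 1) (by omega)
    rwa [show i + (t - 1) = i + t - 1 by omega, show i' + (t - 1) = i' + t - 1 by omega] at this
  have h3 := step 3 (by norm_num) (by omega) (h4 4 le_rfl (by omega))
  have h2 := step 2 (by norm_num) (by omega) h3
  have h1 := step 1 (by norm_num) (by omega) h2
  intro t ht1 ht2
  rcases Nat.lt_or_ge t 4 with h5 | h5
  · interval_cases t
    · exact h1
    · exact h2
    · exact h3
  · exact h4 t h5 ht2

end Pool.Agent.J6H89.Zeck
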